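import Mathlib
import Pool.Agent.Q209.BI

/-!
# Barely independent families over `ω₁` and the splitting number

There is a barely independent family over `ω₁` if and only if there is a sequence of length `ω₁` of
subsets of `ω` such that every infinite subset of `ω` is split by all but countably many of them.
In particular there is none if the splitting number is larger than `ω₁`. As `𝔯 = ω₁ < 𝔰` is
consistent (Blass and Shelah), `𝔯 = ω₁` does not imply that there is a barely independent family
over `ω₁`.
-/

set_option autoImplicit false

namespace Pool.Agent.Results.MP_ce2de7_lc.NeedsSmallSplitting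

open Cardinal Q209.BI

theorem aleph0_lt_cof : ℵ₀ < (aleph 1).ord.cof := by
  rw [isRegular_aleph_one.cof_ord, ← aleph_zero]
  exact aleph_lt_aleph.2 one_pos

theorem lt_aleph_one (c : Cardinal.{0}) : c < aleph 1 ↔ c ≤ ℵ₀ := by
  rw [← succ_aleph0, Order.lt_succ_iff]

theorem result :
    (ExistsOver (aleph 1) ↔ ∃ s : (aleph 1 : Cardinal.{0}).ord.ToType → Set ℕ,
      ∀ R : Set ℕ, R.Infinite → {a | ¬ Splits (s a) R}.Countable) ∧
    (aleph 1 < splittingNumber → ¬ ExistsOver (aleph 1)) := by
  constructor
  · rw [iff_eventually aleph0_lt_cof, EventuallySplitting]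
    refine exists_congr fun s => forall_congr' fun R => imp_congr Iff.rfl ?_
    exact (lt_aleph_one _).trans le_aleph0_iff_set_countable
  · intro h h1
    exact h.not_ge (splitting_le ((iff_eventually aleph0_lt_cof).1 h1))

end Pool.Agent.Results.MP_ce2de7_lc.NeedsSmallSplitting
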